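import Pool.Agent.Lib.MP_70d3b5_lc.Arb.Stage
import Pool.Agent.Lib.MP_70d3b5_lc.Params

/-!
# The hard distribution
-/

open Finset

namespace Pool.Agent.Lib.MP_70d3b5_lc.Arb

theorem pr_fiber {α : Type} [Fintype α] [Nonempty α] {n : ℕ} (g : α → List Bool)
    (hg : ∀ a, (g a).length = n) (Q : List Bool → Prop) [DecidablePred Q] :
    ∑ x : Fin n → Bool, (if Q (List.ofFn x) then pr (fun a => g a = List.ofFn x) else 0) =
      pr (fun a => Q (g a)) := by
  classical
  let φ : α → Fin n → Bool := fun a i => (g a).get (i.cast (hg a).symm)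
  have h1 : ∀ a, List.ofFn (φ a) = g a := by
    intro a
    refine List.ext_get (by simp [hg]) fun i h1 h2 => ?_
    simp [φ]
  have h2 : ∀ a x, g a = List.ofFn x ↔ φ a = x := by
    intro a x
    rw [← h1 a]
    exact ⟨fun h => List.ofFn_injective h, fun h => by rw [h]⟩
  have h3 : ∀ x : Fin n → Bool, pr (fun a => g a = List.ofFn x) =
      ((univ.filter fun a => φ a = x).card : ℝ) / Fintype.card α := by
    intro x
    rw [pr_def]
    congr 3
    ext a
    simp only [mem_filter, mem_univ, true_and]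
    exact h2 a x
  have h4 : pr (fun a => Q (g a)) =
      ((univ.filter fun a => Q (List.ofFn (φ a))).card : ℝ) / Fintype.card α := by
    rw [pr_def]
    congr 3
    ext a
    simp only [mem_filter, mem_univ, true_and]
    rw [h1]
  rw [h4, ← sum_filter]
  simp only [h3]
  rw [← sum_div]
  congr 1
  rw [card_eq_sum_card_fiberwise (f := φ) (t := univ.filter fun x => Q (List.ofFn x))
    (fun a ha => by
      simp only [coe_filter, mem_univ, true_and, Set.mem_ofPred_eq] at ha ⊢
      exact ha)]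
  push_cast
  refine sum_congr rfl fun x hx => ?_
  have hx' := (mem_filter.1 hx).2
  congr 2
  ext a
  simp only [mem_filter, mem_univ, true_and]
  constructor
  · intro h
    exact ⟨by rw [h]; exact hx', h⟩
  · exact fun h => h.2

section dist

variable {k q : ℕ}

theorem enc_mono (h s n : ℕ) {X Y : Finset (Fin k × ZMod q)} (hXY : X ⊆ Y) (p : ℕ)
    (hp : (enc h s n X).getD p false = true) : (enc h s n Y).getD p false = true := by
  by_cases hn : p < n
  · rw [getD_enc _ hn] at hp ⊢
    rcases hp with hp | ⟨v, hv, hp⟩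
    · exact Or.inl hp
    · exact Or.inr ⟨v, hXY hv, hp⟩
  · exfalso
    have : (enc h s n X).getD p false = false := by
      rw [List.getD_eq_default]
      rw [length_enc]
      omega
    rw [this] at hp
    exact absurd hp (by simp)

/-- The hard distribution. -/
noncomputable def dist (q w m N b h s n k : ℕ) [Fact q.Prime] [Fintype (ZMod q)]
    (x : Fin n → Bool) : ℝ :=
  1 / (2 * m) * ∑ j ∈ range m,
    (pr (fun ω : Fin j → Fin b → Fin k × ZMod q → Fin N => enc h s n (RR ω) = List.ofFn x) +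
      pr (fun p : (Fin j → Fin b → Fin k × ZMod q → Fin N) × (Fin (2 * w) → ZMod q) =>
        enc h s n (RR p.1 ∪ graph k p.2) = List.ofFn x))

theorem sum_dist {q w m N b h s n k : ℕ} [Fact q.Prime] (hN : 0 < N) (Q : List Bool → Prop)
    [DecidablePred Q] : ∑ x : Fin n → Bool, (if Q (List.ofFn x) then dist q w m N b h s n k x
      else 0) = 1 / (2 * m) * ∑ j ∈ range m,
    (pr (fun ω : Fin j → Fin b → Fin k × ZMod q → Fin N => Q (enc h s n (RR ω))) +
      pr (fun p : (Fin j → Fin b → Fin k × ZMod q → Fin N) × (Fin (2 * w) → ZMod q) =>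
        Q (enc h s n (RR p.1 ∪ graph k p.2)))) := by
  classical
  have hne : Nonempty (Fin N) := ⟨⟨0, hN⟩⟩
  have h1 : ∀ x : Fin n → Bool, (if Q (List.ofFn x) then dist q w m N b h s n k x else 0) =
      1 / (2 * m) * ∑ j ∈ range m,
      ((if Q (List.ofFn x) then pr (fun ω : Fin j → Fin b → Fin k × ZMod q → Fin N =>
        enc h s n (RR ω) = List.ofFn x) else 0) +
      (if Q (List.ofFn x) then
        pr (fun p : (Fin j → Fin b → Fin k × ZMod q → Fin N) × (Fin (2 * w) → ZMod q) =>
        enc h s n (RR p.1 ∪ graph k p.2) = List.ofFn x) else 0)) := by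
    intro x
    split_ifs
    · rfl
    · simp
  simp only [h1]
  rw [← mul_sum, sum_comm]
  congr 1
  refine sum_congr rfl fun j _ => ?_
  rw [sum_add_distrib, pr_fiber _ (fun _ => length_enc _ _ _ _) Q,
    pr_fiber _ (fun _ => length_enc _ _ _ _) Q]

theorem dist_nonneg {q w m N b h s n k : ℕ} [Fact q.Prime] (x : Fin n → Bool) :
    0 ≤ dist q w m N b h s n k x := by
  unfold dist
  refine mul_nonneg (by positivity) (sum_nonneg fun j _ => add_nonneg (pr_nonneg _) (pr_nonneg _))

theorem pr_true {α : Type} [Fintype α] [Nonempty α] : pr (fun _ : α => True) = 1 := by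
  classical
  rw [pr_def]
  simp

theorem dist_sum {q w m N b h s n k : ℕ} [Fact q.Prime] (hN : 0 < N) (hm : 0 < m) :
    ∑ x : Fin n → Bool, dist q w m N b h s n k x = 1 := by
  have hne : Nonempty (Fin N) := ⟨⟨0, hN⟩⟩
  have h1 := sum_dist (q := q) (w := w) (m := m) (b := b) (h := h) (s := s) (n := n) (k := k) hN
    (fun _ => True)
  simp only [if_true] at h1
  rw [h1]
  simp only [pr_true]
  have : (0 : ℝ) < m := by exact_mod_cast hm
  rw [sum_const, card_range, nsmul_eq_mul]
  field_simp
  norm_num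

end dist

/-- The success probability of a circuit on the hard distribution. -/
theorem success_le {h s n k q w b m N : ℕ} [Fact q.Prime] (hk : k ≤ q)
    (hd : 2 * w ≤ q) (hw : 1 ≤ w) (hb : 2 ≤ b) (hm : 0 < m) (hN : 2 * b * m ≤ N)
    (hq : 4 * (2 * w * N) ≤ q) (gs : List Gate) (out : ℕ) (L : Set (List Bool))
    (hC : ∀ X : Finset (Fin k × ZMod q), enc h s n X ∈ L ↔
      ∃ c : Fin (2 * w) → ZMod q, graph k c ⊆ X) {A : ℕ} (hA : AltLe n gs A) :
    success L (dist q w m N b h s n k) gs out ≤ 1 / 2 + (A + 1) / m +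
      ((ands gs * ((1 / 4) ^ (w + 1) + numSets (Fin k × ZMod q) (2 * w) * (2 / 3) ^ b) +
      (2 / 3) ^ b) + (q : ℝ) ^ (2 * w) * (1 / 2) ^ k) / 2 := by
  classical
  have hq0 : 0 < q := (Fact.out : q.Prime).pos
  have hN0 : 0 < N := lt_of_lt_of_le (by positivity) hN
  have hne : Nonempty (Fin N) := ⟨⟨0, hN0⟩⟩
  have : NeZero q := ⟨hq0.ne'⟩
  have hqR : (0 : ℝ) < q := by exact_mod_cast hq0
  have hmR : (0 : ℝ) < m := by exact_mod_cast hm
  obtain ⟨F₀, hF₀, hW₀⟩ := inputs_mc (k := k) (q := q) h s n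
  set T : Finset (Fin k × ZMod q) → List (List Bool) := fun X =>
    trace (enc h s n X) (addOut gs out) with hTdef
  have hT : SetAlt T (2 * A + 1) := by
    intro m X hX I hI
    have h1 := hA.addOut (out := out) m (fun i => enc h s n (X i))
      ⟨fun i => length_enc _ _ _ _, fun i p hp => enc_mono h s n (hX i) p hp⟩
    refine (card_le_card fun i hi => ?_).trans h1
    obtain ⟨h2, h3⟩ := hI i hi
    exact mem_filter.2 ⟨mem_range.2 h2, h3⟩
  set κ : ℝ := ((2 * w : ℕ) : ℝ) * N with hκ
  have hκ0 : 0 < κ := by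
    have h1 : (0 : ℝ) < ((2 * w : ℕ) : ℝ) := by
      have : 0 < 2 * w := by omega
      exact_mod_cast this
    have h2 : (0 : ℝ) < N := by exact_mod_cast hN0
    positivity
  have hκq : 4 * κ ≤ q := by
    rw [hκ]
    exact_mod_cast hq
  have hκq' : κ / q ≤ 1 / 4 := by
    rw [div_le_div_iff₀ hqR (by norm_num)]
    linarith
  have hpow : (κ / q) ^ (w + 1) ≤ (1 / 4) ^ (w + 1) :=
    pow_le_pow_left₀ (by positivity) hκq' _
  have hmono : ∀ (X Y : Finset (Fin k × ZMod q)), X ⊆ Y → ∀ i, wire (inputs h s n) i X →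
      wire (inputs h s n) i Y := fun X Y hXY i => hF₀.mono _ (hW₀ i) _ _ hXY
  have hsig := sum_signal (m := m) (b := b) hT (S := fun c : Fin (2 * w) → ZMod q => graph k c)
    (q := q) (κ := κ) (w := w) (N := N) hN0 hw hb hκ0 le_rfl hκq (spread_graph hk hd)
    (s := ands gs) (fun X Y => simG (addOut gs out) (inputs h s n) (T X) Y) (fun X => by
      obtain ⟨F', h1, _, h3, _⟩ := sim_mc (addOut gs out) 0 (inputs h s n) F₀ (T X) hF₀ hW₀
      rw [zero_add, ands_addOut] at h1
      exact ⟨F', h1, h3⟩) (fun X Y hXY => by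
      constructor
      · intro h1 h2
        have h3 := (sim_true (addOut gs out) (enc h s n Y) (inputs h s n)
          (match_enc h s n Y)).2
        change ¬ simG (addOut gs out) (inputs h s n) (T Y) Y at h3
        rw [← h2] at h3
        exact h3 h1
      · intro h1
        by_contra h2
        exact h1 (sim_mono (addOut gs out) (enc h s n X) (enc h s n Y) (inputs h s n)
          (match_enc h s n X) (match_enc h s n Y) (hmono X Y hXY) h2).symm)
  set ε : ℝ := ands gs * ((1 / 4) ^ (w + 1) +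
    numSets (Fin k × ZMod q) (2 * w) * (2 / 3) ^ b) + (2 / 3) ^ b with hε
  set η : ℝ := (q : ℝ) ^ (2 * w) * (1 / 2) ^ k with hη
  have hsig' : ∑ j ∈ range m, pr (fun p : (Fin j → Fin b → Fin k × ZMod q → Fin N) ×
      (Fin (2 * w) → ZMod q) => T (RR p.1) ≠ T (RR p.1 ∪ graph k p.2)) ≤
      (2 * A + 1) + m * ε := by
    refine hsig.trans ?_
    rw [hε]
    push_cast
    gcongr
  have h1 : success L (dist q w m N b h s n k) gs out = 1 / (2 * m) * ∑ j ∈ range m,
      (pr (fun ω : Fin j → Fin b → Fin k × ZMod q → Fin N => Correct L gs out (enc h s n (RR ω))) +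
      pr (fun p : (Fin j → Fin b → Fin k × ZMod q → Fin N) × (Fin (2 * w) → ZMod q) =>
        Correct L gs out (enc h s n (RR p.1 ∪ graph k p.2)))) :=
    sum_dist hN0 (fun x => Correct L gs out x)
  have h2 : ∀ j ∈ range m,
      pr (fun ω : Fin j → Fin b → Fin k × ZMod q → Fin N => Correct L gs out (enc h s n (RR ω))) +
      pr (fun p : (Fin j → Fin b → Fin k × ZMod q → Fin N) × (Fin (2 * w) → ZMod q) =>
        Correct L gs out (enc h s n (RR p.1 ∪ graph k p.2))) ≤
      1 + η + pr (fun p : (Fin j → Fin b → Fin k × ZMod q → Fin N) ×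
      (Fin (2 * w) → ZMod q) => T (RR p.1) ≠ T (RR p.1 ∪ graph k p.2)) := by
    intro j hj
    have e1 : pr (fun ω : Fin j → Fin b → Fin k × ZMod q → Fin N =>
        Correct L gs out (enc h s n (RR ω))) =
        pr (fun p : (Fin j → Fin b → Fin k × ZMod q → Fin N) × (Fin (2 * w) → ZMod q) =>
        Correct L gs out (enc h s n (RR p.1))) :=
      (pr_fst (fun ω : Fin j → Fin b → Fin k × ZMod q → Fin N =>
        Correct L gs out (enc h s n (RR ω)))).symm
    have e2 : pr (fun p : (Fin j → Fin b → Fin k × ZMod q → Fin N) × (Fin (2 * w) → ZMod q) =>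
        Correct L gs out (enc h s n (RR p.1 ∪ graph k p.2))) ≤
        pr (fun p : (Fin j → Fin b → Fin k × ZMod q → Fin N) × (Fin (2 * w) → ZMod q) =>
          ¬ Correct L gs out (enc h s n (RR p.1))) +
        pr (fun p : (Fin j → Fin b → Fin k × ZMod q → Fin N) × (Fin (2 * w) → ZMod q) =>
          (∃ c : Fin (2 * w) → ZMod q, graph k c ⊆ RR p.1) ∨
            T (RR p.1) ≠ T (RR p.1 ∪ graph k p.2)) := by
      refine (pr_mono fun p hp => ?_).trans (pr_or_le _ _)
      by_cases h3 : Correct L gs out (enc h s n (RR p.1))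
      · right
        by_cases h4 : ∃ c : Fin (2 * w) → ZMod q, graph k c ⊆ RR p.1
        · exact Or.inl h4
        · right
          intro h5
          have h6 := (trace_addOut_eq.1 h5).2
          have h7 : enc h s n (RR p.1 ∪ graph k p.2) ∈ L :=
            (hC _).2 ⟨p.2, subset_union_right⟩
          have h8 := hp.2 h7
          rw [← h6] at h8
          exact h4 ((hC _).1 (h3.1 h8))
      · exact Or.inl h3
    have e3 : pr (fun p : (Fin j → Fin b → Fin k × ZMod q → Fin N) × (Fin (2 * w) → ZMod q) =>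
          ¬ Correct L gs out (enc h s n (RR p.1))) =
        1 - pr (fun p : (Fin j → Fin b → Fin k × ZMod q → Fin N) × (Fin (2 * w) → ZMod q) =>
          Correct L gs out (enc h s n (RR p.1))) := pr_compl _
    have e4 := pr_or_le (fun p : (Fin j → Fin b → Fin k × ZMod q → Fin N) ×
      (Fin (2 * w) → ZMod q) => ∃ c : Fin (2 * w) → ZMod q, graph k c ⊆ RR p.1)
      (fun p => T (RR p.1) ≠ T (RR p.1 ∪ graph k p.2))
    have e5 : pr (fun p : (Fin j → Fin b → Fin k × ZMod q → Fin N) ×
        (Fin (2 * w) → ZMod q) => ∃ c : Fin (2 * w) → ZMod q, graph k c ⊆ RR p.1) ≤ η := by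
      rw [pr_fst (fun ω : Fin j → Fin b → Fin k × ZMod q → Fin N =>
        ∃ c : Fin (2 * w) → ZMod q, graph k c ⊆ RR ω)]
      exact noise_bound hN hN0 (mem_range.1 hj)
    rw [e1]
    linarith
  rw [h1]
  have h3 : ∑ j ∈ range m,
      (pr (fun ω : Fin j → Fin b → Fin k × ZMod q → Fin N => Correct L gs out (enc h s n (RR ω))) +
      pr (fun p : (Fin j → Fin b → Fin k × ZMod q → Fin N) × (Fin (2 * w) → ZMod q) =>
        Correct L gs out (enc h s n (RR p.1 ∪ graph k p.2)))) ≤
      m * (1 + η) + ((2 * A + 1) + m * ε) := by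
    refine (sum_le_sum h2).trans ?_
    rw [sum_add_distrib]
    simp only [sum_const, card_range, nsmul_eq_mul]
    linarith
  calc 1 / (2 * (m : ℝ)) * _ ≤ 1 / (2 * (m : ℝ)) * (m * (1 + η) + ((2 * A + 1) + m * ε)) := by
        gcongr
    _ = 1 / 2 + (2 * A + 1) / (2 * m) + (ε + η) / 2 := by
        field_simp
        ring
    _ ≤ 1 / 2 + (A + 1) / m + (ε + η) / 2 := by
        have : (2 * (A : ℝ) + 1) / (2 * m) ≤ (A + 1) / m := by
          rw [div_le_div_iff₀ (by positivity) hmR]
          nlinarith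
        linarith

end Pool.Agent.Lib.MP_70d3b5_lc.Arb
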