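import Pool.Agent.Lib.MP_70d3b5_lc.Defs

/-!
# Circuits with arbitrary gates

Boolean circuits with AND and OR gates of fan-in two, constants, and arbitrary gates: gates that
compute an arbitrary Boolean function of an arbitrary number of wires.  NOT gates are the
arbitrary gates with one input that negate it.
-/

namespace Pool.Agent.Lib.MP_70d3b5_lc.Arb

/-- A gate of a circuit.  The arguments of a gate are numbers of wires: on `n` inputs, the wires
`0, …, n - 1` are the inputs, and the `j`-th gate (counted from `0`) of the circuit writes wire
`n + j`.  A gate that refers to a wire that has not been written yet reads `false`.  The gate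
`any h l` applies the arbitrary function `h` to the list of the values of the wires in `l`. -/
inductive Gate : Type
  | const (b : Bool) : Gate
  | and (i j : ℕ) : Gate
  | or (i j : ℕ) : Gate
  | any (h : List Bool → Bool) (l : List ℕ) : Gate

/-- The values of the wires in the list `l`. -/
def args (w : List Bool) (l : List ℕ) : List Bool := l.map fun i => w.getD i false

/-- The value of a gate, given the values of the earlier wires. -/
def Gate.eval (w : List Bool) : Gate → Bool
  | .const b => b
  | .and i j => w.getD i false && w.getD j false
  | .or i j => w.getD i false || w.getD j false
  | .any h l => h (args w l)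

/-- The values of all wires, given the values of the first ones. -/
def run (w : List Bool) : List Gate → List Bool
  | [] => w
  | g :: gs => run (w ++ [g.eval w]) gs

/-- The inputs of the arbitrary gates, in order. -/
def trace (w : List Bool) : List Gate → List (List Bool)
  | [] => []
  | .any h l :: gs => args w l :: trace (w ++ [h (args w l)]) gs
  | .const b :: gs => trace (w ++ [b]) gs
  | .and i j :: gs => trace (w ++ [w.getD i false && w.getD j false]) gs
  | .or i j :: gs => trace (w ++ [w.getD i false || w.getD j false]) gs

/-- The number of AND gates. -/
def ands : List Gate → ℕ
  | [] => 0
  | .and _ _ :: gs => ands gs + 1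
  | _ :: gs => ands gs

/-- The total number of inputs of the arbitrary gates. -/
def fan : List Gate → ℕ
  | [] => 0
  | .any _ l :: gs => l.length + fan gs
  | _ :: gs => fan gs

/-- The level of the wire written by a gate, given the levels of the earlier wires: the largest
number of arbitrary gates on a path that ends with this wire. -/
def Gate.level (v : List ℕ) : Gate → ℕ
  | .const _ => 0
  | .and i j => max (v.getD i 0) (v.getD j 0)
  | .or i j => max (v.getD i 0) (v.getD j 0)
  | .any _ l => (l.map fun i => v.getD i 0).foldr max 0 + 1

/-- The largest level of a wire, given the levels of the first wires. -/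
def depthFrom (v : List ℕ) : List Gate → ℕ
  | [] => 0
  | g :: gs => max (g.level v) (depthFrom (v ++ [g.level v]) gs)

/-- The nesting depth of the arbitrary gates of a circuit on `n` inputs: the largest number of
arbitrary gates on a path. -/
def depth (n : ℕ) (gs : List Gate) : ℕ := depthFrom (List.replicate n 0) gs

/-- An increasing chain of inputs of length `n`. -/
def Chain (n : ℕ) (x : ℕ → List Bool) : Prop :=
  (∀ i, (x i).length = n) ∧ ∀ i p, (x i).getD p false = true → (x (i + 1)).getD p false = true

/-- Along every increasing chain of inputs of length `n`, the inputs of the arbitrary gates
change at most `A` times. -/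
def AltLe (n : ℕ) (gs : List Gate) (A : ℕ) : Prop :=
  ∀ (m : ℕ) (x : ℕ → List Bool), Chain n x →
    ((Finset.range m).filter fun i => trace (x i) gs ≠ trace (x (i + 1)) gs).card ≤ A

/-- The lists of inputs of the arbitrary gates that occur on inputs of length `n`. -/
def traces (n : ℕ) (gs : List Gate) : Finset (List (List Bool)) :=
  (Finset.univ : Finset (Fin n → Bool)).image fun x => trace (List.ofFn x) gs

/-- The circuit with gates `gs` and output wire `out` is correct on `x`: it outputs whether `x`
belongs to `L`. -/
def Correct (L : Set (List Bool)) (gs : List Gate) (out : ℕ) (x : List Bool) : Prop :=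
  (run x gs).getD out false = true ↔ x ∈ L

open Classical in
/-- The probability that the circuit is correct on a random input of length `n` with
distribution `D`. -/
noncomputable def success (L : Set (List Bool)) {n : ℕ} (D : (Fin n → Bool) → ℝ)
    (gs : List Gate) (out : ℕ) : ℝ :=
  ∑ x : Fin n → Bool, if Correct L gs out (List.ofFn x) then D x else 0

end Pool.Agent.Lib.MP_70d3b5_lc.Arb
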