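import Pool.Agent.Lib.MP_70d3b5_lc.Circuit
import Pool.Agent.Lib.MP_70d3b5_lc.Arb.Defs

/-!
# Freezing the arbitrary gates
-/

open Finset

namespace Pool.Agent.Lib.MP_70d3b5_lc.Arb

section sim

variable {V : Type}

/-- Evaluation of a circuit in which the inputs of the arbitrary gates are replaced by the lists
in `a`: the functions on all wires. -/
def simW : List Gate → List (Finset V → Prop) → List (List Bool) → List (Finset V → Prop)
  | [], W, _ => W
  | .const b :: gs, W, a => simW gs (ext W (fun _ => b = true)) a
  | .and i j :: gs, W, a => simW gs (ext W (fun X => wire W i X ∧ wire W j X)) a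
  | .or i j :: gs, W, a => simW gs (ext W (fun X => wire W i X ∨ wire W j X)) a
  | .any h _ :: gs, W, a => simW gs (ext W (fun _ => h (a.headD []) = true)) a.tail

/-- Some wire in the list `l` whose entry in `c` is false is true at `X`. -/
def rise (W : List (Finset V → Prop)) : List ℕ → List Bool → Finset V → Prop
  | [], _, _ => False
  | i :: l, c, X => (c.headD false = false ∧ wire W i X) ∨ rise W l c.tail X

/-- The disjunction of those inputs of arbitrary gates whose value in the list `a` is false. -/
def simG : List Gate → List (Finset V → Prop) → List (List Bool) → Finset V → Prop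
  | [], _, _, _ => False
  | .const b :: gs, W, a, X => simG gs (ext W (fun _ => b = true)) a X
  | .and i j :: gs, W, a, X => simG gs (ext W (fun X => wire W i X ∧ wire W j X)) a X
  | .or i j :: gs, W, a, X => simG gs (ext W (fun X => wire W i X ∨ wire W j X)) a X
  | .any h l :: gs, W, a, X => rise W l (a.headD []) X ∨
      simG gs (ext W (fun _ => h (a.headD []) = true)) a.tail X

theorem not_rise {w : List Bool} {W : List (Finset V → Prop)} {X : Finset V}
    (h : Match w W X) (l : List ℕ) : ¬ rise W l (args w l) X := by
  induction l with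
  | nil => exact fun h => h
  | cons i l ih =>
    rintro (⟨h1, h2⟩ | h1)
    · rw [← h.2 i] at h2
      simp only [args, List.map_cons, List.headD_cons] at h1
      rw [h2] at h1
      simp at h1
    · exact ih h1

theorem args_eq {w w' : List Bool} {W : List (Finset V → Prop)} {X Y : Finset V}
    (h : Match w W X) (h' : Match w' W Y) (hm : ∀ i, wire W i X → wire W i Y) (l : List ℕ)
    (hr : ¬ rise W l (args w l) Y) : args w' l = args w l := by
  induction l with
  | nil => rfl
  | cons i l ih =>
    simp only [rise, args, List.map_cons, List.headD_cons, List.tail_cons, not_or, not_and] at hr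
    have e : w'.getD i false = w.getD i false := by
      cases hx : w.getD i false with
      | true => exact (h'.2 i).2 (hm i ((h.2 i).1 hx))
      | false =>
        have h1 : ¬ w'.getD i false = true := fun h2 => hr.1 hx ((h'.2 i).1 h2)
        rwa [Bool.not_eq_true] at h1
    have := ih hr.2
    simp only [args, List.map_cons] at this ⊢
    rw [e, this]

theorem sim_true {X : Finset V} (gs : List Gate) :
    ∀ (w : List Bool) (W : List (Finset V → Prop)), Match w W X →
      Match (run w gs) (simW gs W (trace w gs)) X ∧ ¬ simG gs W (trace w gs) X := by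
  induction gs with
  | nil => intro w W h; exact ⟨h, fun h => h⟩
  | cons g gs ih =>
    intro w W h
    cases g with
    | const b =>
      exact ih _ _ (h.append (f := fun _ => b = true) Iff.rfl)
    | and i j =>
      refine ih _ _ (h.append (f := fun X => wire W i X ∧ wire W j X) ?_)
      simp only [Gate.eval, Bool.and_eq_true, h.2]
    | or i j =>
      refine ih _ _ (h.append (f := fun X => wire W i X ∨ wire W j X) ?_)
      simp only [Gate.eval, Bool.or_eq_true, h.2]
    | any f l =>
      have h1 := ih (w ++ [f (args w l)]) (ext W (fun _ => f (args w l) = true))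
        (h.append (f := fun _ => f (args w l) = true) Iff.rfl)
      refine ⟨h1.1, ?_⟩
      rintro (h2 | h2)
      · exact not_rise h l h2
      · exact h1.2 h2

theorem sim_mono {X Y : Finset V} (gs : List Gate) :
    ∀ (w w' : List Bool) (W : List (Finset V → Prop)), Match w W X → Match w' W Y →
      (∀ i, wire W i X → wire W i Y) → ¬ simG gs W (trace w gs) Y →
      trace w' gs = trace w gs := by
  induction gs with
  | nil => intro w w' W _ _ _ _; rfl
  | cons g gs ih =>
    intro w w' W h h' hm hn
    have happ : ∀ {f : Finset V → Prop}, (f X → f Y) → ∀ i, wire (ext W f) i X →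
        wire (ext W f) i Y := by
      intro f hf i
      rcases wire_ext_cases W f i with h | h | h <;> rw [h]
      · exact hm i
      · exact hf
      · exact fun h => h
    cases g with
    | const b =>
      exact ih _ _ _ (h.append (f := fun _ => b = true) Iff.rfl)
        (h'.append (f := fun _ => b = true) Iff.rfl) (happ fun h => h) hn
    | and i j =>
      refine ih _ _ _ (h.append (f := fun X => wire W i X ∧ wire W j X) ?_)
        (h'.append (f := fun X => wire W i X ∧ wire W j X) ?_)
        (happ fun h => ⟨hm i h.1, hm j h.2⟩) hn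
      · simp only [Bool.and_eq_true, h.2]
      · simp only [Bool.and_eq_true, h'.2]
    | or i j =>
      refine ih _ _ _ (h.append (f := fun X => wire W i X ∨ wire W j X) ?_)
        (h'.append (f := fun X => wire W i X ∨ wire W j X) ?_)
        (happ fun h => h.imp (hm i) (hm j)) hn
      · simp only [Bool.or_eq_true, h.2]
      · simp only [Bool.or_eq_true, h'.2]
    | any f l =>
      simp only [simG, trace, List.headD_cons, List.tail_cons, not_or] at hn
      have e := args_eq h h' hm l hn.1
      simp only [trace]
      rw [e]
      exact congrArg _ (ih _ _ (ext W (fun _ => f (args w l) = true))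
        (h.append Iff.rfl) (h'.append Iff.rfl) (happ fun h => h) hn.2)

theorem rise_mc (l : List ℕ) : ∀ (s : ℕ) (W F : List (Finset V → Prop)) (c : List Bool),
    MC s F → (∀ i, wire W i ∈ F) → (fun _ => False) ∈ F → ∃ F', MC s F' ∧
      rise W l c ∈ F' ∧ ∀ f ∈ F, f ∈ F' := by
  induction l with
  | nil => intro s W F c hF _ hff; exact ⟨F, hF, hff, fun f hf => hf⟩
  | cons i l ih =>
    intro s W F c hF hW hff
    obtain ⟨F', h1, h2, h3⟩ := ih s W F c.tail hF hW hff
    have hw : (fun X => c.headD false = false ∧ wire W i X) ∈ F' := by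
      cases c.headD false with
      | true =>
        have : (fun X => true = false ∧ wire W i X) = fun _ => False := by funext X; simp
        rw [this]
        exact h3 _ hff
      | false =>
        have : (fun X => false = false ∧ wire W i X) = wire W i := by funext X; simp
        rw [this]
        exact h3 _ (hW i)
    exact ⟨_, MC.or h1 hw h2, List.mem_cons_self .., fun f hf => List.mem_cons_of_mem _ (h3 f hf)⟩

theorem sim_mc (gs : List Gate) : ∀ (s : ℕ) (W F : List (Finset V → Prop)) (a : List (List Bool)),
    MC s F → (∀ i, wire W i ∈ F) → ∃ F', MC (s + ands gs) F' ∧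
      (∀ i, wire (simW gs W a) i ∈ F') ∧ simG gs W a ∈ F' ∧ ∀ f ∈ F, f ∈ F' := by
  induction gs with
  | nil =>
    intro s W F a hF hW
    refine ⟨_, hF.ff, fun i => List.mem_cons_of_mem _ (hW i), ?_,
      fun f hf => List.mem_cons_of_mem _ hf⟩
    have : (simG [] W a : Finset V → Prop) = fun _ => False := rfl
    rw [this]
    exact List.mem_cons_self ..
  | cons g gs ih =>
    intro s W F a hF hW
    have happ : ∀ {f : Finset V → Prop} {F' : List (Finset V → Prop)}, f ∈ F' →
        (∀ i, wire W i ∈ F') → (fun _ => False) ∈ F' → ∀ i, wire (ext W f) i ∈ F' := by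
      intro f F' hf hF' hff i
      rcases wire_ext_cases W f i with h | h | h <;> rw [h]
      · exact hF' i
      · exact hf
      · exact hff
    have hb : ∀ b : Bool, ∃ F', MC s F' ∧ (fun _ => b = true) ∈ F' ∧ (fun _ => False) ∈ F' ∧
        ∀ f ∈ F, f ∈ F' := by
      intro b
      cases b with
      | true =>
        refine ⟨_, hF.ff.tt, ?_, ?_, fun f hf => ?_⟩
        · simp
        · exact List.mem_cons_of_mem _ (List.mem_cons_self ..)
        · exact List.mem_cons_of_mem _ (List.mem_cons_of_mem _ hf)
      | false =>
        refine ⟨_, hF.ff, ?_, List.mem_cons_self .., fun f hf => List.mem_cons_of_mem _ hf⟩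
        simp
    cases g with
    | const b =>
      obtain ⟨F₀, h1, h2, h3, h4⟩ := hb b
      obtain ⟨F', h5, h6, h7, h8⟩ := ih s _ F₀ a h1 (happ h2 (fun i => h4 _ (hW i)) h3)
      exact ⟨F', h5, h6, h7, fun f hf => h8 f (h4 f hf)⟩
    | and i j =>
      have h1 : MC (s + 1) ((fun X => wire W i X ∧ wire W j X) :: (fun _ => False) :: F) :=
        MC.and hF.ff (List.mem_cons_of_mem _ (hW i)) (List.mem_cons_of_mem _ (hW j))
      obtain ⟨F', h2, h3, h4, h5⟩ := ih _ _ _ a h1 (happ (f := fun X => wire W i X ∧ wire W j X)
        (List.mem_cons_self ..) (fun i => List.mem_cons_of_mem _ (List.mem_cons_of_mem _ (hW i)))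
        (List.mem_cons_of_mem _ (List.mem_cons_self ..)))
      refine ⟨F', ?_, h3, h4,
        fun f hf => h5 f (List.mem_cons_of_mem _ (List.mem_cons_of_mem _ hf))⟩
      have : s + ands (.and i j :: gs) = s + 1 + ands gs := by simp only [ands]; omega
      rw [this]
      exact h2
    | or i j =>
      have h1 : MC s ((fun X => wire W i X ∨ wire W j X) :: (fun _ => False) :: F) :=
        MC.or hF.ff (List.mem_cons_of_mem _ (hW i)) (List.mem_cons_of_mem _ (hW j))
      obtain ⟨F', h2, h3, h4, h5⟩ := ih _ _ _ a h1 (happ (f := fun X => wire W i X ∨ wire W j X)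
        (List.mem_cons_self ..) (fun i => List.mem_cons_of_mem _ (List.mem_cons_of_mem _ (hW i)))
        (List.mem_cons_of_mem _ (List.mem_cons_self ..)))
      exact ⟨F', h2, h3, h4,
        fun f hf => h5 f (List.mem_cons_of_mem _ (List.mem_cons_of_mem _ hf))⟩
    | any h l =>
      obtain ⟨F₀, h1, h2, h3, h4⟩ := hb (h (a.headD []))
      obtain ⟨F', h6, h7, h8, h9⟩ := ih s (ext W (fun _ => h (a.headD []) = true)) F₀ a.tail
        h1 (happ (f := fun _ => h (a.headD []) = true) h2 (fun i => h4 _ (hW i)) h3)
      obtain ⟨F'', k1, k2, k3⟩ := rise_mc l _ W F' (a.headD []) h6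
        (fun i => h9 _ (h4 _ (hW i))) (h9 _ h3)
      exact ⟨_, MC.or k1 k2 (k3 _ h8), fun i => List.mem_cons_of_mem _ (k3 _ (h7 i)),
        List.mem_cons_self .., fun f hf => List.mem_cons_of_mem _ (k3 _ (h9 f (h4 f hf)))⟩

end sim

end Pool.Agent.Lib.MP_70d3b5_lc.Arb
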