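import Pool.Agent.Lib.MP_70d3b5_lc.Arb.Defs

/-!
# Nesting depth and alternation
-/

open Finset

namespace Pool.Agent.Lib.MP_70d3b5_lc.Arb

/-- The number of true inputs of the arbitrary gates of level `i`. -/
def ones (i : ℕ) : List Gate → List Bool → List ℕ → ℕ
  | [], _, _ => 0
  | .any h l :: gs, w, v => (if (Gate.any h l).level v = i then (args w l).count true else 0) +
      ones i gs (w ++ [h (args w l)]) (v ++ [(Gate.any h l).level v])
  | .const b :: gs, w, v => ones i gs (w ++ [b]) (v ++ [0])
  | .and p q :: gs, w, v => ones i gs (w ++ [w.getD p false && w.getD q false])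
      (v ++ [max (v.getD p 0) (v.getD q 0)])
  | .or p q :: gs, w, v => ones i gs (w ++ [w.getD p false || w.getD q false])
      (v ++ [max (v.getD p 0) (v.getD q 0)])

/-- The total number of inputs of the arbitrary gates of level `i`. -/
def fanAt (i : ℕ) : List Gate → List ℕ → ℕ
  | [], _ => 0
  | .any h l :: gs, v => (if (Gate.any h l).level v = i then l.length else 0) +
      fanAt i gs (v ++ [(Gate.any h l).level v])
  | .const _ :: gs, v => fanAt i gs (v ++ [0])
  | .and p q :: gs, v => fanAt i gs (v ++ [max (v.getD p 0) (v.getD q 0)])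
  | .or p q :: gs, v => fanAt i gs (v ++ [max (v.getD p 0) (v.getD q 0)])

/-- The arbitrary gates of level less than `i` have the same inputs. -/
def Same (i : ℕ) : List Gate → List Bool → List Bool → List ℕ → Prop
  | [], _, _, _ => True
  | .any h l :: gs, w, w', v => ((Gate.any h l).level v < i → args w l = args w' l) ∧
      Same i gs (w ++ [h (args w l)]) (w' ++ [h (args w' l)]) (v ++ [(Gate.any h l).level v])
  | .const b :: gs, w, w', v => Same i gs (w ++ [b]) (w' ++ [b]) (v ++ [0])
  | .and p q :: gs, w, w', v => Same i gs (w ++ [w.getD p false && w.getD q false])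
      (w' ++ [w'.getD p false && w'.getD q false]) (v ++ [max (v.getD p 0) (v.getD q 0)])
  | .or p q :: gs, w, w', v => Same i gs (w ++ [w.getD p false || w.getD q false])
      (w' ++ [w'.getD p false || w'.getD q false]) (v ++ [max (v.getD p 0) (v.getD q 0)])

theorem ones_le_fanAt (i : ℕ) (gs : List Gate) : ∀ (w : List Bool) (v : List ℕ),
    ones i gs w v ≤ fanAt i gs v := by
  induction gs with
  | nil => intro w v; exact le_rfl
  | cons g gs ih =>
    intro w v
    cases g with
    | const b => exact ih _ _
    | and p q => exact ih _ _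
    | or p q => exact ih _ _
    | any h l =>
      refine Nat.add_le_add ?_ (ih _ _)
      split_ifs
      · exact List.count_le_length.trans (by simp [args])
      · exact le_rfl

theorem le_foldr_max {l : List ℕ} {a : ℕ} (h : a ∈ l) : a ≤ l.foldr max 0 := by
  induction l with
  | nil => simp at h
  | cons b l ih =>
    rcases List.mem_cons.1 h with rfl | h
    · exact le_max_left _ _
    · exact (ih h).trans (le_max_right _ _)

/-- Wires of level less than `i` can only go up. -/
def Up (i : ℕ) (w w' : List Bool) (v : List ℕ) : Prop :=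
  w.length = v.length ∧ w'.length = v.length ∧
    ∀ p, v.getD p 0 < i → w.getD p false = true → w'.getD p false = true

theorem Up.append {i : ℕ} {w w' : List Bool} {v : List ℕ} (h : Up i w w' v) {b b' : Bool}
    {c : ℕ} (hb : c < i → b = true → b' = true) : Up i (w ++ [b]) (w' ++ [b']) (v ++ [c]) := by
  obtain ⟨h1, h2, h3⟩ := h
  refine ⟨by simp [h1], by simp [h2], fun p hp hw => ?_⟩
  rcases lt_trichotomy p v.length with hl | hl | hl
  · rw [List.getD_append _ _ _ _ hl] at hp
    rw [List.getD_append _ _ _ _ (h1 ▸ hl)] at hw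
    rw [List.getD_append _ _ _ _ (h2 ▸ hl)]
    exact h3 p hp hw
  · subst hl
    rw [List.getD_append_right _ _ _ _ le_rfl] at hp
    rw [List.getD_append_right _ _ _ _ h1.le, h1] at hw
    rw [List.getD_append_right _ _ _ _ h2.le, h2]
    simp only [Nat.sub_self, List.getD_cons_zero] at hp hw ⊢
    exact hb hp hw
  · rw [List.getD_append_right _ _ _ _ (by omega)] at hw
    have e1 : p - w.length = (p - w.length - 1) + 1 := by omega
    rw [e1] at hw
    simp at hw

theorem count_args {w w' : List Bool} (l : List ℕ)
    (h : ∀ p ∈ l, w.getD p false = true → w'.getD p false = true) :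
    (args w l).count true ≤ (args w' l).count true ∧
      ((args w l).count true = (args w' l).count true → args w l = args w' l) := by
  induction l with
  | nil => exact ⟨le_rfl, fun _ => rfl⟩
  | cons p l ih =>
    obtain ⟨h1, h2⟩ := ih fun q hq => h q (List.mem_cons_of_mem _ hq)
    have h3 := h p (List.mem_cons_self ..)
    simp only [args, List.map_cons, List.count_cons] at h1 h2 ⊢
    cases hx : w.getD p false <;> cases hy : w'.getD p false <;>
      simp only [hx, hy] at h3 ⊢
    · simp only [Bool.false_beq, Bool.not_true, Bool.false_eq_true, if_false,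
        add_zero, List.cons.injEq, true_and]
      exact ⟨h1, h2⟩
    · simp only [beq_self_eq_true, Bool.false_beq, Bool.not_true, Bool.false_eq_true, if_false,
        if_true, add_zero]
      constructor
      · omega
      · intro h4
        omega
    · simp at h3
    · simp only [beq_self_eq_true, if_true, Nat.add_le_add_iff_right, Nat.add_right_cancel_iff,
        List.cons.injEq, true_and]
      exact ⟨h1, h2⟩

theorem step (i : ℕ) (gs : List Gate) : ∀ (w w' : List Bool) (v : List ℕ), Up i w w' v →
    Same i gs w w' v → ones i gs w v ≤ ones i gs w' v ∧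
      (ones i gs w v = ones i gs w' v → Same (i + 1) gs w w' v) := by
  induction gs with
  | nil => intro w w' v _ _; exact ⟨le_rfl, fun _ => trivial⟩
  | cons g gs ih =>
    intro w w' v hU hS
    cases g with
    | const b => exact ih _ _ _ (hU.append fun _ h => h) hS
    | and p q =>
      refine ih _ _ _ (hU.append fun hc h => ?_) hS
      rw [Bool.and_eq_true] at h ⊢
      exact ⟨hU.2.2 p (lt_of_le_of_lt (le_max_left _ _) hc) h.1,
        hU.2.2 q (lt_of_le_of_lt (le_max_right _ _) hc) h.2⟩
    | or p q =>
      refine ih _ _ _ (hU.append fun hc h => ?_) hS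
      rw [Bool.or_eq_true] at h ⊢
      exact h.imp (hU.2.2 p (lt_of_le_of_lt (le_max_left _ _) hc))
        (hU.2.2 q (lt_of_le_of_lt (le_max_right _ _) hc))
    | any h l =>
      obtain ⟨hS1, hS2⟩ := hS
      obtain ⟨h1, h2⟩ := ih (w ++ [h (args w l)]) (w' ++ [h (args w' l)])
        (v ++ [(Gate.any h l).level v])
        (hU.append fun hc h3 => by rw [← hS1 hc]; exact h3) hS2
      simp only [ones, Same]
      by_cases hl : (Gate.any h l).level v = i
      · have h3 : ∀ p ∈ l, w.getD p false = true → w'.getD p false = true := by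
          intro p hp
          refine hU.2.2 p ?_
          have h4 : v.getD p 0 ≤ (l.map fun i => v.getD i 0).foldr max 0 :=
            le_foldr_max (List.mem_map_of_mem hp)
          have h5 : (Gate.any h l).level v = (l.map fun i => v.getD i 0).foldr max 0 + 1 := rfl
          omega
        obtain ⟨h6, h7⟩ := count_args l h3
        rw [if_pos hl, if_pos hl]
        refine ⟨by omega, fun h8 => ⟨fun _ => h7 (by omega), h2 (by omega)⟩⟩
      · rw [if_neg hl, if_neg hl, zero_add, zero_add]
        exact ⟨h1, fun h8 => ⟨fun h9 => hS1 (by omega), h2 h8⟩⟩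

theorem same_zero (gs : List Gate) : ∀ (w w' : List Bool) (v : List ℕ), Same 0 gs w w' v := by
  induction gs with
  | nil => intro w w' v; trivial
  | cons g gs ih =>
    intro w w' v
    cases g with
    | const b => exact ih _ _ _
    | and p q => exact ih _ _ _
    | or p q => exact ih _ _ _
    | any h l => exact ⟨fun h => absurd h (Nat.not_lt_zero _), ih _ _ _⟩

theorem Same.trace_eq {i : ℕ} (gs : List Gate) : ∀ (w w' : List Bool) (v : List ℕ),
    Same i gs w w' v → depthFrom v gs < i → trace w gs = trace w' gs := by
  induction gs with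
  | nil => intro w w' v _ _; rfl
  | cons g gs ih =>
    intro w w' v hS hd
    have hd' : depthFrom (v ++ [g.level v]) gs < i := lt_of_le_of_lt (le_max_right _ _) hd
    have hd'' : g.level v < i := lt_of_le_of_lt (le_max_left _ _) hd
    cases g with
    | const b => exact ih _ _ _ hS hd'
    | and p q => exact ih _ _ _ hS hd'
    | or p q => exact ih _ _ _ hS hd'
    | any h l =>
      obtain ⟨hS1, hS2⟩ := hS
      have e := hS1 hd''
      simp only [trace]
      rw [ih _ _ _ hS2 hd', e]

/-- Mixed radix numbers. -/
def radix (K N : ℕ → ℕ) : ℕ → ℕ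
  | 0 => 0
  | i + 1 => radix K N i * (K i + 1) + N i

theorem radix_lt {K N : ℕ → ℕ} (h : ∀ i, N i ≤ K i) (d : ℕ) :
    radix K N d < ∏ i ∈ range d, (K i + 1) := by
  induction d with
  | zero => simp [radix]
  | succ d ih =>
    rw [prod_range_succ, radix]
    calc radix K N d * (K d + 1) + N d < radix K N d * (K d + 1) + (K d + 1) := by
          have := h d; omega
      _ = (radix K N d + 1) * (K d + 1) := by ring
      _ ≤ _ := Nat.mul_le_mul_right _ ih

theorem radix_congr {K N N' : ℕ → ℕ} {d : ℕ} (h : ∀ j < d, N j = N' j) :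
    radix K N d = radix K N' d := by
  induction d with
  | zero => rfl
  | succ d ih => rw [radix, radix, ih fun j hj => h j (by omega), h d (by omega)]

theorem radix_lex {K N N' : ℕ → ℕ} (hN : ∀ i, N i ≤ K i) {i : ℕ} (h : ∀ j < i, N j = N' j)
    (hi : N i < N' i) : ∀ d, i < d → radix K N d < radix K N' d := by
  intro d
  induction d with
  | zero => intro h; exact absurd h (Nat.not_lt_zero _)
  | succ d ih =>
    intro hd
    rw [radix, radix]
    rcases Nat.lt_succ_iff_lt_or_eq.1 hd with h1 | h1
    · have h2 := ih h1
      calc radix K N d * (K d + 1) + N d < radix K N d * (K d + 1) + (K d + 1) := by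
            have := hN d; omega
        _ = (radix K N d + 1) * (K d + 1) := by ring
        _ ≤ radix K N' d * (K d + 1) := Nat.mul_le_mul_right _ h2
        _ ≤ _ := Nat.le_add_right _ _
    · subst h1
      rw [radix_congr h]
      omega

/-- The potential. -/
def pot (n : ℕ) (gs : List Gate) (x : List Bool) : ℕ :=
  radix (fun i => fanAt i gs (List.replicate n 0)) (fun i => ones i gs x (List.replicate n 0))
    (depth n gs + 1)

theorem pot_step {n : ℕ} {gs : List Gate} {x y : List Bool} (hx : x.length = n)
    (hy : y.length = n) (h : ∀ p, x.getD p false = true → y.getD p false = true) :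
    pot n gs x ≤ pot n gs y ∧ (trace x gs ≠ trace y gs → pot n gs x < pot n gs y) := by
  classical
  set v : List ℕ := List.replicate n 0 with hv
  have hU : ∀ i, Up i x y v := fun i => ⟨by simp [hv, hx], by simp [hv, hy], fun p _ => h p⟩
  have hS : ∀ i, (∀ j < i, ones j gs x v = ones j gs y v) → Same i gs x y v := by
    intro i
    induction i with
    | zero => intro _; exact same_zero _ _ _ _
    | succ i ih =>
      intro h1
      exact (step i gs x y v (hU i) (ih fun j hj => h1 j (by omega))).2 (h1 i (by omega))
  by_cases hall : ∀ j < depth n gs + 1, ones j gs x v = ones j gs y v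
  · have h1 : trace x gs = trace y gs := (hS _ hall).trace_eq gs x y v (Nat.lt_succ_self _)
    have h2 : pot n gs x = pot n gs y := radix_congr hall
    exact ⟨h2.le, fun h3 => absurd h1 h3⟩
  · push Not at hall
    have hex : ∃ j, j < depth n gs + 1 ∧ ones j gs x v ≠ ones j gs y v := hall
    obtain ⟨h1, h2⟩ := Nat.find_spec hex
    have h3 : ∀ j < Nat.find hex, ones j gs x v = ones j gs y v := by
      intro j hj
      by_contra hc
      exact Nat.find_min hex hj ⟨hj.trans h1, hc⟩
    have h4 := (step _ gs x y v (hU _) (hS _ h3)).1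
    have h5 : pot n gs x < pot n gs y :=
      radix_lex (fun i => ones_le_fanAt i gs x v) h3 (lt_of_le_of_ne h4 h2) _ h1
    exact ⟨h5.le, fun _ => h5⟩

theorem altLe_prod (n : ℕ) (gs : List Gate) :
    AltLe n gs (∏ i ∈ range (depth n gs + 1), (fanAt i gs (List.replicate n 0) + 1) - 1) := by
  intro m x hx
  have h1 : ((range m).filter fun i => trace (x i) gs ≠ trace (x (i + 1)) gs).card +
      pot n gs (x 0) ≤ pot n gs (x m) := by
    induction m with
    | zero => simp
    | succ m ih =>
      have h2 := pot_step (gs := gs) (hx.1 m) (hx.1 (m + 1)) (hx.2 m)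
      rw [range_add_one, filter_insert]
      split_ifs with h3
      · rw [card_insert_of_notMem (by simp)]
        have := h2.2 h3
        omega
      · have := h2.1
        omega
  have h2 : pot n gs (x m) < ∏ i ∈ range (depth n gs + 1), (fanAt i gs (List.replicate n 0) + 1) :=
    radix_lt (fun i => ones_le_fanAt i gs _ _) _
  omega

theorem sum_fanAt (gs : List Gate) : ∀ (v : List ℕ) (d : ℕ), depthFrom v gs ≤ d →
    ∑ i ∈ range d, fanAt (i + 1) gs v = fan gs := by
  induction gs with
  | nil => intro v d _; simp [fanAt, fan]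
  | cons g gs ih =>
    intro v d hd
    have hd' : depthFrom (v ++ [g.level v]) gs ≤ d := (le_max_right _ _).trans hd
    have hd'' : g.level v ≤ d := (le_max_left _ _).trans hd
    cases g with
    | const b => exact ih _ _ hd'
    | and p q => exact ih _ _ hd'
    | or p q => exact ih _ _ hd'
    | any h l =>
      simp only [fanAt, fan]
      rw [sum_add_distrib, ih _ _ hd']
      congr 1
      have h5 : (Gate.any h l).level v = (l.map fun i => v.getD i 0).foldr max 0 + 1 := rfl
      rw [h5] at hd'' ⊢
      set c := (l.map fun i => v.getD i 0).foldr max 0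
      rw [sum_eq_single c]
      · rw [if_pos rfl]
      · intro b _ hb
        rw [if_neg (by omega)]
      · intro hc
        exact absurd (mem_range.2 (by omega)) hc

theorem fanAt_zero (gs : List Gate) : ∀ v : List ℕ, fanAt 0 gs v = 0 := by
  induction gs with
  | nil => intro v; rfl
  | cons g gs ih =>
    intro v
    cases g with
    | const b => exact ih _
    | and p q => exact ih _
    | or p q => exact ih _
    | any h l =>
      simp only [fanAt]
      rw [ih, if_neg (by simp [Gate.level])]

theorem fanAt_eq_zero (gs : List Gate) : ∀ (v : List ℕ) (i : ℕ), depthFrom v gs < i →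
    fanAt i gs v = 0 := by
  induction gs with
  | nil => intro v i _; rfl
  | cons g gs ih =>
    intro v i hd
    have hd' : depthFrom (v ++ [g.level v]) gs < i := lt_of_le_of_lt (le_max_right _ _) hd
    have hd'' : g.level v < i := lt_of_le_of_lt (le_max_left _ _) hd
    cases g with
    | const b => exact ih _ _ hd'
    | and p q => exact ih _ _ hd'
    | or p q => exact ih _ _ hd'
    | any h l =>
      simp only [fanAt]
      rw [ih _ _ hd', if_neg hd''.ne]

/-- The inequality between the means. -/
theorem prod_le_mean (d : ℕ) (hd : 1 ≤ d) (a : ℕ → ℕ) :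
    ((∏ i ∈ range d, (a i + 1) : ℕ) : ℝ) ≤ ((∑ i ∈ range d, a i : ℕ) / d + 1 : ℝ) ^ d := by
  have hd0 : (0 : ℝ) < d := by exact_mod_cast hd
  have h1 := Real.geom_mean_le_arith_mean_weighted (range d) (fun _ => 1 / (d : ℝ))
    (fun i => (a i + 1 : ℝ)) (fun _ _ => by positivity)
    (by simp [mul_inv_cancel₀ hd0.ne']) (fun _ _ => by positivity)
  have h2 : ∑ i ∈ range d, 1 / (d : ℝ) * (a i + 1 : ℝ) =
      ((∑ i ∈ range d, a i : ℕ) / d + 1 : ℝ) := by
    rw [← mul_sum, sum_add_distrib]
    simp only [sum_const, card_range, nsmul_eq_mul, mul_one]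
    push_cast
    field_simp
  rw [h2] at h1
  have h3 : ((∏ i ∈ range d, (a i + 1) : ℕ) : ℝ) =
      (∏ i ∈ range d, (a i + 1 : ℝ) ^ (1 / (d : ℝ))) ^ d := by
    rw [← prod_pow]
    push_cast
    refine prod_congr rfl fun i _ => ?_
    rw [← Real.rpow_natCast, ← Real.rpow_mul (by positivity), one_div_mul_cancel hd0.ne',
      Real.rpow_one]
  rw [h3]
  exact pow_le_pow_left₀ (prod_nonneg fun i _ => by positivity) h1 d

/-- The alternation is bounded in terms of the nesting depth and the number of inputs of the
arbitrary gates. -/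
theorem altLe_depth {n d : ℕ} {gs : List Gate} (hd : 1 ≤ d) (h : depth n gs ≤ d) :
    ∃ A, AltLe n gs A ∧ (A + 1 : ℝ) ≤ (fan gs / d + 1 : ℝ) ^ d := by
  refine ⟨_, altLe_prod n gs, ?_⟩
  set v : List ℕ := List.replicate n 0 with hv
  have h1 : ∏ i ∈ range (depth n gs + 1), (fanAt i gs v + 1) =
      ∏ i ∈ range (d + 1), (fanAt i gs v + 1) := by
    refine prod_subset (range_subset_range.2 (by omega)) fun i _ hi => ?_
    rw [mem_range, not_lt] at hi
    have h0 : depth n gs = depthFrom v gs := rfl
    rw [fanAt_eq_zero gs v i (by omega), zero_add]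
  have h2 : ∏ i ∈ range (d + 1), (fanAt i gs v + 1) = ∏ i ∈ range d, (fanAt (i + 1) gs v + 1) := by
    rw [prod_range_succ', fanAt_zero]
    simp
  have h3 := prod_le_mean d hd fun i => fanAt (i + 1) gs v
  rw [sum_fanAt gs v d h] at h3
  have h4 : 1 ≤ ∏ i ∈ range (depth n gs + 1), (fanAt i gs v + 1) :=
    Nat.one_le_iff_ne_zero.2 (prod_ne_zero_iff.2 fun i _ => by omega)
  have h5 : ((∏ i ∈ range (depth n gs + 1), (fanAt i gs v + 1) - 1 : ℕ) + 1 : ℝ) =
      ((∏ i ∈ range d, (fanAt (i + 1) gs v + 1) : ℕ) : ℝ) := by
    rw [← h2, ← h1, Nat.cast_sub h4]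
    push_cast
    ring
  rw [h5]
  exact h3

end Pool.Agent.Lib.MP_70d3b5_lc.Arb
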