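import Pool.Agent.Lib.MP_70d3b5_lc.Bound
import Pool.Agent.Lib.MP_70d3b5_lc.Arb.Circuit
import Pool.Agent.Lib.MP_70d3b5_lc.Arb.Level

/-!
# Changes along the stages of the noise
-/

open Finset

namespace Pool.Agent.Lib.MP_70d3b5_lc.Arb

/-! ### The output as an additional arbitrary gate -/

/-- The circuit with an additional arbitrary gate that reads the output. -/
def addOut (gs : List Gate) (out : ℕ) : List Gate := gs ++ [.any (fun _ => false) [out]]

theorem trace_addOut (gs : List Gate) (out : ℕ) : ∀ w : List Bool,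
    trace w (addOut gs out) = trace w gs ++ [[(run w gs).getD out false]] := by
  unfold addOut
  induction gs with
  | nil => intro w; rfl
  | cons g gs ih =>
    intro w
    cases g with
    | const b => exact ih _
    | and p q => exact ih _
    | or p q => exact ih _
    | any h l =>
      simp only [List.cons_append, trace]
      rw [ih]
      rfl

theorem ands_addOut (gs : List Gate) (out : ℕ) : ands (addOut gs out) = ands gs := by
  unfold addOut
  induction gs with
  | nil => rfl
  | cons g gs ih =>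
    cases g with
    | const b => exact ih
    | and p q => exact congrArg (· + 1) ih
    | or p q => exact ih
    | any h l => exact ih

theorem trace_addOut_eq {gs : List Gate} {out : ℕ} {w w' : List Bool} :
    trace w (addOut gs out) = trace w' (addOut gs out) ↔
      trace w gs = trace w' gs ∧ (run w gs).getD out false = (run w' gs).getD out false := by
  rw [trace_addOut, trace_addOut]
  constructor
  · intro h
    obtain ⟨h1, h2⟩ := List.append_inj' h rfl
    exact ⟨h1, by simpa using h2⟩
  · rintro ⟨h1, h2⟩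
    rw [h1, h2]

theorem run_mono (gs : List Gate) : ∀ (w w' : List Bool), w.length = w'.length →
    (∀ p, w.getD p false = true → w'.getD p false = true) → trace w gs = trace w' gs →
    ∀ p, (run w gs).getD p false = true → (run w' gs).getD p false = true := by
  induction gs with
  | nil => intro w w' _ h _; exact h
  | cons g gs ih =>
    intro w w' hl h ht
    have happ : ∀ {b b' : Bool}, (b = true → b' = true) → ∀ p, (w ++ [b]).getD p false = true →
        (w' ++ [b']).getD p false = true := by
      intro b b' hb p hp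
      rcases lt_trichotomy p w.length with h1 | h1 | h1
      · rw [List.getD_append _ _ _ _ h1] at hp
        rw [List.getD_append _ _ _ _ (hl ▸ h1)]
        exact h p hp
      · rw [List.getD_append_right _ _ _ _ h1.ge, h1] at hp
        rw [List.getD_append_right _ _ _ _ (by omega), h1, hl]
        simp only [Nat.sub_self, List.getD_cons_zero] at hp ⊢
        exact hb hp
      · rw [List.getD_append_right _ _ _ _ h1.le] at hp
        have e1 : p - w.length = (p - w.length - 1) + 1 := by omega
        rw [e1] at hp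
        simp at hp
    cases g with
    | const b => exact ih _ _ (by simp [hl]) (happ fun h => h) ht
    | and p q =>
      refine ih _ _ (by simp [hl]) (happ fun h1 => ?_) ht
      simp only [Gate.eval, Bool.and_eq_true] at h1 ⊢
      exact ⟨h _ h1.1, h _ h1.2⟩
    | or p q =>
      refine ih _ _ (by simp [hl]) (happ fun h1 => ?_) ht
      simp only [Gate.eval, Bool.or_eq_true] at h1 ⊢
      exact h1.imp (h _) (h _)
    | any f l =>
      simp only [trace, List.cons.injEq] at ht
      refine ih _ _ (by simp [hl]) (happ fun h1 => ?_) ht.2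
      simp only [Gate.eval] at h1 ⊢
      rwa [← ht.1]

theorem AltLe.addOut {n : ℕ} {gs : List Gate} {out A : ℕ} (h : AltLe n gs A) :
    AltLe n (addOut gs out) (2 * A + 1) := by
  intro m x hx
  have h1 : ∀ m : ℕ, ((range m).filter fun i => trace (x i) (Arb.addOut gs out) ≠
      trace (x (i + 1)) (Arb.addOut gs out)).card +
      (if (run (x m) gs).getD out false = true then 0 else 1) ≤
      2 * ((range m).filter fun i => trace (x i) gs ≠ trace (x (i + 1)) gs).card + 1 := by
    intro m
    induction m with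
    | zero => simp; split_ifs <;> omega
    | succ m ih =>
      rw [range_add_one, filter_insert, filter_insert]
      by_cases ht : trace (x m) gs = trace (x (m + 1)) gs
      · rw [if_neg (not_not.2 ht)]
        have hm := run_mono gs (x m) (x (m + 1)) ((hx.1 m).trans (hx.1 (m + 1)).symm)
          (hx.2 m) ht out
        by_cases hb : (run (x m) gs).getD out false = (run (x (m + 1)) gs).getD out false
        · rw [if_neg (not_not.2 (trace_addOut_eq.2 ⟨ht, hb⟩)), ← hb]
          exact ih
        · rw [if_pos (fun hc => hb (trace_addOut_eq.1 hc).2), card_insert_of_notMem (by simp)]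
          have h3 : (run (x m) gs).getD out false = false := by
            cases hc : (run (x m) gs).getD out false with
            | false => rfl
            | true => exact absurd (hc.trans (hm hc).symm) hb
          have h4 : (run (x (m + 1)) gs).getD out false = true := by
            cases hc : (run (x (m + 1)) gs).getD out false with
            | true => rfl
            | false => exact absurd (h3.trans hc.symm) hb
          rw [h3] at ih
          rw [h4]
          simp only [Bool.false_eq_true, if_false, if_true] at ih ⊢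
          omega
      · rw [if_pos ht, if_pos (fun hc => ht (trace_addOut_eq.1 hc).1),
          card_insert_of_notMem (by simp), card_insert_of_notMem (by simp)]
        split_ifs at ih ⊢ <;> omega
  have h2 := h1 m
  have h3 := h m x hx
  omega

/-! ### The rank of a set -/

section rank

variable {V : Type} {τ : Type}

/-- The function `T` changes at most `A` times along increasing chains of sets. -/
def SetAlt (T : Finset V → τ) (A : ℕ) : Prop := ∀ (m : ℕ) (X : ℕ → Finset V),
  (∀ i, X i ⊆ X (i + 1)) → ∀ I : Finset ℕ, (∀ i ∈ I, i < m ∧ T (X i) ≠ T (X (i + 1))) →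
    I.card ≤ A

/-- The numbers of changes along the chains that end with `X`. -/
def rankSet (T : Finset V → τ) (X : Finset V) : Set ℕ :=
  {c | ∃ (m : ℕ) (Y : ℕ → Finset V) (I : Finset ℕ), (∀ i, Y i ⊆ Y (i + 1)) ∧ Y m = X ∧
    (∀ i ∈ I, i < m ∧ T (Y i) ≠ T (Y (i + 1))) ∧ I.card = c}

theorem zero_mem_rankSet (T : Finset V → τ) (X : Finset V) : 0 ∈ rankSet T X :=
  ⟨0, fun _ => X, ∅, fun _ => Subset.refl _, rfl, by simp, rfl⟩

theorem rankSet_le {T : Finset V → τ} {A : ℕ} (h : SetAlt T A) {X : Finset V} {c : ℕ}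
    (hc : c ∈ rankSet T X) : c ≤ A := by
  obtain ⟨m, Y, I, h1, _, h3, rfl⟩ := hc
  exact h m Y h1 I h3

theorem rankSet_mono {T : Finset V → τ} {X Y : Finset V} (hXY : X ⊆ Y) {c : ℕ}
    (hc : c ∈ rankSet T X) : c ∈ rankSet T Y := by
  obtain ⟨m, Z, I, h1, h2, h3, h4⟩ := hc
  refine ⟨m + 1, fun i => if i ≤ m then Z i else Y, I, fun i => ?_, ?_, fun i hi => ?_, h4⟩
  · simp only
    rcases lt_trichotomy i m with h | h | h
    · rw [if_pos h.le, if_pos (by omega)]
      exact h1 i
    · subst h
      rw [if_pos le_rfl, if_neg (by omega), h2]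
      exact hXY
    · rw [if_neg (by omega), if_neg (by omega)]
  · simp
  · obtain ⟨h5, h6⟩ := h3 i hi
    refine ⟨by omega, ?_⟩
    simp only
    rw [if_pos h5.le, if_pos (by omega)]
    exact h6

theorem rankSet_succ {T : Finset V → τ} {X Y : Finset V} (hXY : X ⊆ Y) (hT : T X ≠ T Y) {c : ℕ}
    (hc : c ∈ rankSet T X) : c + 1 ∈ rankSet T Y := by
  obtain ⟨m, Z, I, h1, h2, h3, h4⟩ := hc
  refine ⟨m + 1, fun i => if i ≤ m then Z i else Y, insert m I, fun i => ?_, ?_,
    fun i hi => ?_, ?_⟩
  · simp only
    rcases lt_trichotomy i m with h | h | h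
    · rw [if_pos h.le, if_pos (by omega)]
      exact h1 i
    · subst h
      rw [if_pos le_rfl, if_neg (by omega), h2]
      exact hXY
    · rw [if_neg (by omega), if_neg (by omega)]
  · simp
  · simp only
    rcases mem_insert.1 hi with rfl | hi
    · refine ⟨by omega, ?_⟩
      rw [if_pos le_rfl, if_neg (by omega), h2]
      exact hT
    · obtain ⟨h5, h6⟩ := h3 i hi
      refine ⟨by omega, ?_⟩
      rw [if_pos h5.le, if_pos (by omega)]
      exact h6
  · rw [card_insert_of_notMem, h4]
    intro h5
    exact absurd (h3 m h5).1 (lt_irrefl _)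

/-- A change of `T` passes one of the levels `1, …, A`. -/
theorem exists_level {T : Finset V → τ} {A : ℕ} (h : SetAlt T A) {X Y : Finset V} (hXY : X ⊆ Y)
    (hT : T X ≠ T Y) : ∃ c ∈ Icc 1 A, c ∈ rankSet T Y ∧ c ∉ rankSet T X := by
  classical
  have hb : ∀ c ∈ rankSet T X, c ≤ A := fun c hc => rankSet_le h hc
  set c := Nat.findGreatest (fun c => c ∈ rankSet T X) A with hc
  have h1 : c ∈ rankSet T X :=
    Nat.findGreatest_spec (P := fun c => c ∈ rankSet T X) (Nat.zero_le A) (zero_mem_rankSet T X)
  have h2 : c + 1 ∈ rankSet T Y := rankSet_succ hXY hT h1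
  refine ⟨c + 1, mem_Icc.2 ⟨by omega, rankSet_le h h2⟩, h2, fun h3 => ?_⟩
  have h4 : c + 1 ≤ c := Nat.le_findGreatest (hb _ h3) h3
  omega

end rank

/-! ### The sum over the stages -/

variable {V : Type} [Fintype V] [DecidableEq V]

theorem sum_noise {τ : Type} {T : Finset V → τ} {A : ℕ} (h : SetAlt T A) {N b m : ℕ}
    (hN : 0 < N) :
    ∑ j ∈ range m, pr (fun p : (Fin j → Fin b → V → Fin N) × (Fin b → V → Fin N) =>
      T (RR p.1) ≠ T (RR p.1 ∪ ZZ p.2)) ≤ A := by
  classical
  have hne : Nonempty (Fin N) := ⟨⟨0, hN⟩⟩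
  have h1 : ∀ j ∈ range m, pr (fun p : (Fin j → Fin b → V → Fin N) × (Fin b → V → Fin N) =>
      T (RR p.1) ≠ T (RR p.1 ∪ ZZ p.2)) ≤ ∑ c ∈ Icc 1 A,
      (pr (fun ω : Fin (j + 1) → Fin b → V → Fin N => c ∈ rankSet T (RR ω)) -
        pr (fun ω : Fin j → Fin b → V → Fin N => c ∈ rankSet T (RR ω))) := by
    intro j _
    refine (pr_mono fun p hp => exists_level h subset_union_left hp).trans ?_
    refine (pr_exists_le (Icc 1 A) (fun c (p : (Fin j → Fin b → V → Fin N) ×
      (Fin b → V → Fin N)) => c ∈ rankSet T (RR p.1 ∪ ZZ p.2) ∧ c ∉ rankSet T (RR p.1))).trans ?_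
    refine sum_le_sum fun c _ => le_of_eq ?_
    have h2 := pr_diff (α := (Fin j → Fin b → V → Fin N) × (Fin b → V → Fin N))
      (P := fun p => c ∈ rankSet T (RR p.1 ∪ ZZ p.2)) (Q := fun p => c ∈ rankSet T (RR p.1))
      (fun p hp => rankSet_mono subset_union_left hp)
    rw [h2, pr_fst (fun ω : Fin j → Fin b → V → Fin N => c ∈ rankSet T (RR ω)),
      pr_succ (fun X => c ∈ rankSet T X)]
  refine (sum_le_sum h1).trans ?_
  rw [sum_comm]
  have h3 : ∀ c ∈ Icc 1 A, ∑ j ∈ range m,
      (pr (fun ω : Fin (j + 1) → Fin b → V → Fin N => c ∈ rankSet T (RR ω)) -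
        pr (fun ω : Fin j → Fin b → V → Fin N => c ∈ rankSet T (RR ω))) ≤ 1 := by
    intro c _
    rw [sum_range_sub (fun j => pr (fun ω : Fin j → Fin b → V → Fin N => c ∈ rankSet T (RR ω))) m]
    have a1 := pr_le_one (fun ω : Fin m → Fin b → V → Fin N => c ∈ rankSet T (RR ω))
    have a2 := pr_nonneg (fun ω : Fin 0 → Fin b → V → Fin N => c ∈ rankSet T (RR ω))
    linarith
  refine (sum_le_sum h3).trans ?_
  simp

variable {U : Type} [Fintype U] [Nonempty U]

/-- The sum over the stages of the probability that a random set `S u` changes `T`, when the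
changes above any given set are detected by monotone functions of small complexity. -/
theorem sum_signal {τ : Type} {T : Finset V → τ} {A : ℕ} (hT : SetAlt T A) {S : U → Finset V}
    {q κ : ℝ} {w N b m : ℕ} (hN : 0 < N) (hw : 1 ≤ w)
    (hb : 2 ≤ b) (hκ : 0 < κ) (hκL : ((2 * w : ℕ) : ℝ) * N ≤ κ) (hκq : 4 * κ ≤ q)
    (hS : Spread S q (2 * w)) {s : ℕ} (g : Finset V → Finset V → Prop)
    (hg : ∀ X, ∃ F, MC s F ∧ g X ∈ F) (hgT : ∀ X Y, X ⊆ Y → (g X Y ↔ T X ≠ T Y)) :
    ∑ j ∈ range m, pr (fun p : (Fin j → Fin b → V → Fin N) × U =>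
      T (RR p.1) ≠ T (RR p.1 ∪ S p.2)) ≤
    A + m * (s * ((κ / q) ^ (w + 1) + numSets V (2 * w) * (2 / 3) ^ b) + (2 / 3) ^ b) := by
  classical
  set ε : ℝ := s * ((κ / q) ^ (w + 1) + numSets V (2 * w) * (2 / 3) ^ b) + (2 / 3) ^ b with hε
  have hne : Nonempty (Fin N) := ⟨⟨0, hN⟩⟩
  have h1 : ∀ j ∈ range m, pr (fun p : (Fin j → Fin b → V → Fin N) × U =>
      T (RR p.1) ≠ T (RR p.1 ∪ S p.2)) ≤
      pr (fun p : (Fin j → Fin b → V → Fin N) × (Fin b → V → Fin N) =>
        T (RR p.1) ≠ T (RR p.1 ∪ ZZ p.2)) + ε := by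
    intro j _
    rw [pr_prod (fun (ω : Fin j → Fin b → V → Fin N) (u : U) => T (RR ω) ≠ T (RR ω ∪ S u)),
      pr_prod (fun (ω : Fin j → Fin b → V → Fin N) (z : Fin b → V → Fin N) =>
        T (RR ω) ≠ T (RR ω ∪ ZZ z))]
    have h3 : ∀ ω : Fin j → Fin b → V → Fin N, pr (fun u => T (RR ω) ≠ T (RR ω ∪ S u)) ≤
        pr (fun z : Fin b → V → Fin N => T (RR ω) ≠ T (RR ω ∪ ZZ z)) + ε := by
      intro ω
      obtain ⟨F, hF, hgF⟩ := hg (RR ω)
      have h4 := (hF.restrict (RR ω)).compare hN hw hb hκ hκL hκq hS (b := b)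
        (List.mem_map_of_mem (f := fun f X => f (RR ω ∪ X)) hgF)
      have e1 : pr (fun u => g (RR ω) (RR ω ∪ S u)) = pr (fun u => T (RR ω) ≠ T (RR ω ∪ S u)) :=
        pr_congr fun u => hgT _ _ subset_union_left
      have e2 : pr (fun z : Fin b → V → Fin N => g (RR ω) (RR ω ∪ ZZ z)) =
          pr (fun z : Fin b → V → Fin N => T (RR ω) ≠ T (RR ω ∪ ZZ z)) :=
        pr_congr fun z => hgT _ _ subset_union_left
      rw [← e1, ← e2]
      exact h4
    have h0 : (0 : ℝ) < Fintype.card (Fin j → Fin b → V → Fin N) := by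
      have : 0 < Fintype.card (Fin j → Fin b → V → Fin N) := Fintype.card_pos
      exact_mod_cast this
    rw [div_add' _ _ _ h0.ne']
    refine div_le_div_of_nonneg_right ?_ h0.le
    refine (sum_le_sum fun ω _ => h3 ω).trans ?_
    rw [sum_add_distrib]
    simp [mul_comm]
  refine (sum_le_sum h1).trans ?_
  rw [sum_add_distrib]
  have h2 := sum_noise (b := b) (m := m) hT hN
  simp only [sum_const, card_range, nsmul_eq_mul]
  linarith

end Pool.Agent.Lib.MP_70d3b5_lc.Arb
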